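import Mathlib

set_option autoImplicit false

namespace Pool.Agent.Results.MP_0d6f46_co.Counter

/-- A tie-breaking convention: friendly or antagonistic. -/
inductive Conv
  | F
  | A
  deriving DecidableEq

instance : Fintype Conv := ⟨{Conv.F, Conv.A}, fun x => by cases x <;> simp⟩

/-- The outcome `o_X(h) = (o¹, o²)` of the self-interest cumulative subtraction game with
subtraction set `S`, in the setting `X = (convention of player 1, convention of player 2)`; the
dual setting is `X.swap`. With no legal move the maximum and minimum below are `0`. -/
def o (S : Finset ℕ) (X : Conv × Conv) (h : ℕ) : ℕ × ℕ :=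
  let T := (S.filter (fun s => 1 ≤ s ∧ s ≤ h)).attach
  let m := T.sup (fun s => s.1 + (o S X.swap (h - s.1)).2)
  let V := (T.filter (fun s => s.1 + (o S X.swap (h - s.1)).2 = m)).image
    (fun s => (o S X.swap (h - s.1)).1)
  (m, if X.1 = Conv.A then V.min.untopD 0 else V.sup id)
termination_by h
decreasing_by
  all_goals
    have := (Finset.mem_filter.1 (Subtype.property ‹{x // x ∈ S.filter _}›)).2
    omega

def step (S : Finset ℕ) (f : Conv × Conv → ℕ → ℕ × ℕ) (X : Conv × Conv) (h : ℕ) : ℕ × ℕ :=
  let T := S.filter (fun s => 1 ≤ s ∧ s ≤ h)
  let m := T.sup (fun s => s + (f X.swap (h - s)).2)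
  let V := (T.filter (fun s => s + (f X.swap (h - s)).2 = m)).image
    (fun s => (f X.swap (h - s)).1)
  (m, if X.1 = Conv.A then V.min.untopD 0 else V.sup id)

lemma o_eq (S : Finset ℕ) (f : Conv × Conv → ℕ → ℕ × ℕ) (X : Conv × Conv) (h : ℕ)
    (hf : ∀ k < h, o S X.swap k = f X.swap k) : o S X h = step S f X h := by
  have e : ∀ s : {x // x ∈ S.filter (fun s => 1 ≤ s ∧ s ≤ h)},
      o S X.swap (h - s.1) = f X.swap (h - s.1) := by
    intro s
    have := (Finset.mem_filter.1 s.2).2
    exact hf _ (by omega)
  rw [o]
  simp only [e, step]
  have e1 : (S.filter (fun s => 1 ≤ s ∧ s ≤ h)).attach.sup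
      (fun s => s.1 + (f X.swap (h - s.1)).2) =
      (S.filter (fun s => 1 ≤ s ∧ s ≤ h)).sup (fun s => s + (f X.swap (h - s)).2) :=
    Finset.sup_attach _ (fun s => s + (f X.swap (h - s)).2)
  rw [e1]
  have e2 : ∀ m : ℕ, ((S.filter (fun s => 1 ≤ s ∧ s ≤ h)).attach.filter
      (fun s => s.1 + (f X.swap (h - s.1)).2 = m)).image (fun s => (f X.swap (h - s.1)).1) =
      ((S.filter (fun s => 1 ≤ s ∧ s ≤ h)).filter
        (fun s => s + (f X.swap (h - s)).2 = m)).image (fun s => (f X.swap (h - s)).1) := by
    intro m
    ext v
    simp only [Finset.mem_image, Finset.mem_filter, Finset.mem_attach, true_and, Subtype.exists]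
    constructor
    · rintro ⟨a, ha, h1, h2⟩
      exact ⟨a, ⟨ha, h1⟩, h2⟩
    · rintro ⟨a, ⟨ha, h1⟩, h2⟩
      exact ⟨a, ha, h1, h2⟩
  rw [e2]

def code : Conv × Conv → ℕ × ℕ
  | (Conv.F, Conv.F) => (27962366846476567496344662420562582501342662657095375974777841031782950760163999795042813097285274513955430353603139013616394004551924382886944144110841915791297047488121567232934659298002674129763745174659419328976759188831408342108307658624343212032, 25252832510997211863592776632831253639212870933034652701987082889551318767219173979926694359494181673489273826291462496523140239972618936823727154597483773312987901647452943659332385143206627269315384226927107499009443840366987755574209515650197487616)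
  | (Conv.F, Conv.A) => (27958870884858577380197786793609668740839182946421664316176125240680225206440657066371965316449988859934291417100290520960175941096505950591184784642593177694562179472859525606306281453800055509959893961363824500100761024248439545619578976485232345088, 25252832510997211863592776632831253639212870933034652701987082889551318767219173979926694359494181673489273826291462496523140239972618936823727154597483773312987901647452943659332385143206627269315384226927107499009443840366987755574209515650197487616)
  | (Conv.A, Conv.F) => (27962366846476567496344662420562582501342662657095375974777841031782950760163999795042813097285274513955430353603139013616394004551924382886944144110841915791297047488121567232934659298002674129763745174659419328976759188831408342108307658624343212032, 24805349637258017122874439338092425569564245735775934173094784319448791736358691435422166809339274778842013236904634132937881487060352081195139815182699415844360388110446820031323986056891792546510602157490695451433837743621214037536070689506218475520)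
  | (Conv.A, Conv.A) => (27958870884858577380197783832416407974411312865512910992616258799170945732760902543949102260169942995110213179798637939465886637340305737862544788740379043259262513174398994293018280957021613087379355115795576453991666737781842572741182463704381259776, 25252832509317183988584256010573157177023960368253602746762689167199672755306677780345478657865919393338908505295182924349046290550659242356499144612098892576224257352773737375203685922843105345911806258288086836432229288281630373380857922428749217792)

def tab (X : Conv × Conv) (h : ℕ) : ℕ × ℕ :=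
  ((code X).1 >>> (7 * h) % 128, (code X).2 >>> (7 * h) % 128)

lemma chk : ∀ h < 119, ∀ X : Conv × Conv, step {4, 17, 24, 27} tab X h = tab X h := by
  decide +kernel

lemma o_tab : ∀ h < 119, ∀ X : Conv × Conv, o {4, 17, 24, 27} X h = tab X h := by
  intro h
  induction h using Nat.strong_induction_on with
  | _ h ih =>
    intro hh X
    rw [o_eq _ tab X h (fun k hk => ih k hk (by omega) _), chk h hh X]

theorem result :
    (o {4, 17, 24, 27} (Conv.A, Conv.A) 118 = (62, 56) ∧
      o {4, 17, 24, 27} (Conv.A, Conv.F) 118 = (62, 55)) ∧
    ¬ ∀ S : Finset ℕ, S.Nonempty → (∀ s ∈ S, 1 ≤ s) → ∀ h : ℕ,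
      ((o S (Conv.A, Conv.A) h).1 ≤ (o S (Conv.A, Conv.F) h).1 ∧
        (o S (Conv.A, Conv.A) h).1 ≤ (o S (Conv.F, Conv.A) h).1) ∧
      ((o S (Conv.A, Conv.A) h).2 ≤ (o S (Conv.A, Conv.F) h).2 ∧
        (o S (Conv.A, Conv.A) h).2 ≤ (o S (Conv.F, Conv.A) h).2) := by
  have h1 : o {4, 17, 24, 27} (Conv.A, Conv.A) 118 = (62, 56) := by
    rw [o_tab _ (by norm_num)]; decide +kernel
  have h2 : o {4, 17, 24, 27} (Conv.A, Conv.F) 118 = (62, 55) := by
    rw [o_tab _ (by norm_num)]; decide +kernel
  refine ⟨⟨h1, h2⟩, fun h => ?_⟩
  have := (h {4, 17, 24, 27} (by simp) (by simp) 118).2.1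
  rw [h1, h2] at this
  omega

end Pool.Agent.Results.MP_0d6f46_co.Counter
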